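import Pool.Agent.V5helper6.LAR.Main

set_option autoImplicit false

/-!
# Linear arboricity of Cayley graphs of degree less than `p²` with commuting generators

`H931R3.LA.la G` is the linear arboricity (the same expression as in the frozen statement S07085).
Here `p` is at least three and at most the least prime factor of the order of the group.
-/

namespace Pool.Agent.Results.MP_0a041d_co.DegreeBelowPrimeSquare

open SimpleGraph H931R3.LA Pool.Agent.W111.LAR Pool.Agent.TH486.LAC Pool.Agent.V5helper6.LAR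

theorem result :
    ∀ (Γ : Type) [Group Γ] [Finite Γ] (S : Finset Γ) (X : SimpleGraph Γ) (p : ℕ),
      (∀ g h, X.Adj g h ↔ g⁻¹ * h ∈ S) → S.Nonempty → (∀ s ∈ S, ∀ t ∈ S, Commute s t) →
      3 ≤ p → (∀ q : ℕ, q.Prime → q ∣ Nat.card Γ → p ≤ q) → S.card < p ^ 2 →
      la X = (S.card + 2) / 2 ∧
      ∀ (W : Type) [Finite W] [Nonempty W] (G : SimpleGraph W) (f : W → Γ),
        (∀ a b, G.Adj a b → X.Adj (f a) (f b)) →
        (∀ a b c, G.Adj a b → G.Adj a c → f b = f c → b = c) →
        la G ≤ (S.card + 2) / 2 ∧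
          ((∀ a, (G.neighborSet a).ncard = S.card) → la G = (S.card + 2) / 2) := by
  intro Γ _ _ S X p hX hS hc hp3 hp hlt
  have hLD : LD X (S.card / 2) := ld_lt_sq S X hX hc p hp3 hp hlt
  have h2 : (S.card + 2) / 2 = S.card / 2 + 1 := by omega
  have hmain : ∀ (W : Type) [Finite W] [Nonempty W] (G : SimpleGraph W) (f : W → Γ),
        (∀ a b, G.Adj a b → X.Adj (f a) (f b)) →
        (∀ a b c, G.Adj a b → G.Adj a c → f b = f c → b = c) →
        la G ≤ (S.card + 2) / 2 ∧
          ((∀ a, (G.neighborSet a).ncard = S.card) → la G = (S.card + 2) / 2) := by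
    intro W _ _ G f hom inj
    have h1 := hLD.lift G f hom inj
    rw [← h2] at h1
    exact ⟨la_le h1, fun hreg => la_eq_of_cov hS.card_pos hreg h1⟩
  exact ⟨(hmain Γ X id (fun a b h => h) (fun a b c _ _ h => h)).2 (cay_deg S X hX), hmain⟩

end Pool.Agent.Results.MP_0a041d_co.DegreeBelowPrimeSquare
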