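import Pool.Agent.V5helper6.LAR.Elem4

set_option autoImplicit false

/-!
# Linear arboricity of Cayley graphs with commuting generators of prime order `p ≥ 5`

`H931R3.LA.la G` is the linear arboricity (the same expression as in the frozen statement S07085).
There is no bound on the degree.  With `Γ` an elementary abelian `p`-group, `p ≥ 5`, the hypotheses
on `S` hold for every Cayley graph of `Γ`.
-/

namespace Pool.Agent.Results.MP_0a041d_co.ElementaryAbelian

open SimpleGraph H931R3.LA Pool.Agent.W111.LAR Pool.Agent.TH486.LAC Pool.Agent.V5helper6.LAR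

theorem result :
    ∀ (Γ : Type) [Group Γ] [Finite Γ] (S : Finset Γ) (X : SimpleGraph Γ) (p : ℕ),
      (∀ g h, X.Adj g h ↔ g⁻¹ * h ∈ S) → S.Nonempty → p.Prime → 5 ≤ p →
      (∀ s ∈ S, ∀ t ∈ S, Commute s t) → (∀ s ∈ S, s ^ p = 1) →
      la X = (S.card + 2) / 2 ∧
      ∀ (W : Type) [Finite W] [Nonempty W] (G : SimpleGraph W) (f : W → Γ),
        (∀ a b, G.Adj a b → X.Adj (f a) (f b)) →
        (∀ a b c, G.Adj a b → G.Adj a c → f b = f c → b = c) →
        la G ≤ (S.card + 2) / 2 ∧
          ((∀ a, (G.neighborSet a).ncard = S.card) → la G = (S.card + 2) / 2) := by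
  intro Γ _ _ S X p hX hS hpp h5 hc hexp
  haveI : Fact p.Prime := ⟨hpp⟩
  have h2 : (S.card + 2) / 2 = S.card / 2 + 1 := by omega
  have hmain : ∀ (W : Type) [Finite W] [Nonempty W] (G : SimpleGraph W) (f : W → Γ),
        (∀ a b, G.Adj a b → X.Adj (f a) (f b)) →
        (∀ a b c, G.Adj a b → G.Adj a c → f b = f c → b = c) →
        la G ≤ (S.card + 2) / 2 ∧
          ((∀ a, (G.neighborSet a).ncard = S.card) → la G = (S.card + 2) / 2) := by
    intro W _ _ G f hom inj
    have h1 := elem_cov h5 S X hX hc hexp G f hom inj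
    rw [← h2] at h1
    exact ⟨la_le h1, fun hreg => la_eq_of_cov hS.card_pos hreg h1⟩
  exact ⟨(hmain Γ X id (fun a b h => h) (fun a b c _ _ h => h)).2 (cay_deg S X hX), hmain⟩

end Pool.Agent.Results.MP_0a041d_co.ElementaryAbelian
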