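import Pool.Agent.V5helper6.LAR.PermCount
import Pool.Agent.V5helper6.LAR.Count

set_option autoImplicit false

/-!
# The linear arboricity conjecture for almost all lifts of a graph

`H931R3.LA.la G` is the linear arboricity (the same expression as in the frozen statement S07085).

Let `V` be a linearly ordered finite set and let the group `Γ` act on `X`. A function
`σ : Sym2 V → Γ` gives a group element to every pair of vertices; the voltage `volt σ u v` from `u`
to `v` is `σ {u, v}` if `u < v` and its inverse if not. The cover `cover X G σ` of `G` has the vertex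
set `V × X`, and `(u, x)` and `(v, y)` are adjacent if `u` and `v` are adjacent in `G` and
`y = volt σ u v • x`. With `Γ` the group of all permutations of `X = {0, ..., N - 1}` these are the
`N`-lifts of `G`; a uniformly random `σ` gives the usual random lift. With `X = Γ` these are the
regular covers of `G` with group `Γ`.
-/

namespace Pool.Agent.Results.MP_0a041d_co.RandomLifts

open SimpleGraph Finset H931R3.LA Pool.Agent.W111.LAR Pool.Agent.V5helper6.LAR Equiv

/-- **Linear arboricity of random lifts.** Let all degrees of the finite graph `G` be at most `2 k`.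
(1) The proportion of the `N`-lifts of `G` with linear arboricity larger than `k + 1` is at most
`16 |V| k ^ 4 / N`.
(2) For every finite group `Γ`, if `ε` is the proportion of the elements of `Γ` of order less than
`2 k / 3`, then the proportion of the regular covers of `G` with group `Γ` with linear arboricity
larger than `k + 1` is at most `ε |V| k`.
(3) The covers of an `r`-regular graph are `r`-regular, and their linear arboricity is at least
`⌈(r + 1) / 2⌉`. So if `G` is `2 k`-regular then all the other covers in (1) and (2) satisfy the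
equality `la = ⌈(2 k + 1) / 2⌉` of the linear arboricity conjecture. -/
theorem result :
    (∀ (V : Type) [Fintype V] [LinearOrder V] (G : SimpleGraph V) (k N : ℕ),
      (∀ v, (G.neighborSet v).ncard ≤ 2 * k) →
      N * Nat.card {σ : Sym2 V → Perm (Fin N) // k + 1 < la (cover (Fin N) G σ)} ≤
        16 * Fintype.card V * k ^ 4 * Nat.card (Sym2 V → Perm (Fin N))) ∧
    (∀ (V : Type) [Fintype V] [LinearOrder V] (G : SimpleGraph V) (k : ℕ) (Γ : Type) [Group Γ]
      [Finite Γ], (∀ v, (G.neighborSet v).ncard ≤ 2 * k) →
      Nat.card Γ * Nat.card {σ : Sym2 V → Γ // k + 1 < la (cover Γ G σ)} ≤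
        Fintype.card V * k * Nat.card {g : Γ // 3 * orderOf g < 2 * k} *
          Nat.card (Sym2 V → Γ)) ∧
    (∀ (V : Type) [Finite V] [LinearOrder V] [Nonempty V] (G : SimpleGraph V) (r : ℕ) (Γ X : Type)
      [Group Γ] [MulAction Γ X] [Finite X] [Nonempty X] (σ : Sym2 V → Γ), 0 < r →
      (∀ v, (G.neighborSet v).ncard = r) →
      (∀ p, ((cover X G σ).neighborSet p).ncard = r) ∧ (r + 2) / 2 ≤ la (cover X G σ)) := by
  classical
  refine ⟨?_, ?_, ?_⟩
  · intro V _ _ G k N hdeg
    rcases Nat.eq_zero_or_pos N with h0 | h0
    · subst h0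
      rw [zero_mul]
      exact Nat.zero_le _
    have h1 := count_cover (Γ := Perm (Fin N)) (X := Fin N) G k hdeg
    have hB : ∀ x : Fin N, N * (univ.filter (fun g : Perm (Fin N) =>
        Function.minimalPeriod (fun y : Fin N => g • y) x < 2 * k)).card ≤
        2 * (2 * k) * Fintype.card (Perm (Fin N)) := by
      intro x
      have := perm_short x (2 * k)
      rwa [Fintype.card_fin] at this
    set bad := univ.filter (fun σ : Sym2 V → Perm (Fin N) => ¬ Cov (cover (Fin N) G σ) (k + 1))
    have h2 : Nat.card {σ : Sym2 V → Perm (Fin N) // k + 1 < la (cover (Fin N) G σ)} ≤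
        bad.card := by
      rw [Nat.card_eq_fintype_card, Fintype.card_subtype]
      refine card_le_card fun σ hσ => ?_
      rw [mem_filter] at hσ ⊢
      exact ⟨mem_univ _, fun hcov => absurd (la_le hcov) (not_le.2 hσ.2)⟩
    set M := Fintype.card (Perm (Fin N)) with hM
    have hMpos : 0 < M := Fintype.card_pos
    set A := Fintype.card (Sym2 V → Perm (Fin N)) with hA
    have hA' : Nat.card (Sym2 V → Perm (Fin N)) = A := Nat.card_eq_fintype_card
    rw [hA']
    refine le_trans (Nat.mul_le_mul_left _ h2) ?_
    have h3 : N ^ 2 * ∑ x : Fin N, (univ.filter (fun g : Perm (Fin N) =>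
        Function.minimalPeriod (fun y : Fin N => g • y) x < 2 * k)).card ^ 2 ≤
        N * (4 * k * M) ^ 2 := by
      rw [mul_sum]
      calc ∑ x : Fin N, N ^ 2 * (univ.filter (fun g : Perm (Fin N) =>
            Function.minimalPeriod (fun y : Fin N => g • y) x < 2 * k)).card ^ 2
          ≤ ∑ _x : Fin N, (4 * k * M) ^ 2 := by
            refine sum_le_sum fun x _ => ?_
            rw [← mul_pow]
            refine Nat.pow_le_pow_left ?_ 2
            have := hB x
            calc _ ≤ 2 * (2 * k) * M := this
              _ = 4 * k * M := by ring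
        _ = N * (4 * k * M) ^ 2 := by rw [sum_const, card_univ, Fintype.card_fin, smul_eq_mul]
    have h4 : (N * bad.card) * (N * M ^ 2) ≤ (16 * Fintype.card V * k ^ 4 * A) * (N * M ^ 2) := by
      calc (N * bad.card) * (N * M ^ 2) = N ^ 2 * (bad.card * M ^ 2) := by ring
        _ ≤ N ^ 2 * (Fintype.card V * k ^ 2 * (∑ x : Fin N, (univ.filter (fun g : Perm (Fin N) =>
            Function.minimalPeriod (fun y : Fin N => g • y) x < 2 * k)).card ^ 2) * A) :=
            Nat.mul_le_mul_left _ h1
        _ = Fintype.card V * k ^ 2 * A * (N ^ 2 * ∑ x : Fin N, (univ.filter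
            (fun g : Perm (Fin N) =>
            Function.minimalPeriod (fun y : Fin N => g • y) x < 2 * k)).card ^ 2) := by ring
        _ ≤ Fintype.card V * k ^ 2 * A * (N * (4 * k * M) ^ 2) := Nat.mul_le_mul_left _ h3
        _ = (16 * Fintype.card V * k ^ 4 * A) * (N * M ^ 2) := by ring
    exact Nat.le_of_mul_le_mul_right h4 (by positivity)
  · intro V _ _ G k Γ _ _ hdeg
    have := Fintype.ofFinite Γ
    have h1 := count_regular (Γ := Γ) G k hdeg
    set bad := univ.filter (fun σ : Sym2 V → Γ => ¬ Cov (cover Γ G σ) (k + 1))
    have h2 : Nat.card {σ : Sym2 V → Γ // k + 1 < la (cover Γ G σ)} ≤ bad.card := by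
      rw [Nat.card_eq_fintype_card, Fintype.card_subtype]
      refine card_le_card fun σ hσ => ?_
      rw [mem_filter] at hσ ⊢
      exact ⟨mem_univ _, fun hcov => absurd (la_le hcov) (not_le.2 hσ.2)⟩
    have h3 : Nat.card {g : Γ // 3 * orderOf g < 2 * k} =
        (univ.filter (fun g : Γ => 3 * orderOf g < 2 * k)).card := by
      rw [Nat.card_eq_fintype_card, Fintype.card_subtype]
    rw [Nat.card_eq_fintype_card (α := Γ), Nat.card_eq_fintype_card (α := Sym2 V → Γ), h3,
      mul_comm]
    exact (Nat.mul_le_mul_right _ h2).trans h1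
  · intro V _ _ _ G r Γ X _ _ _ _ σ hr hreg
    have h1 : ∀ p, ((cover X G σ).neighborSet p).ncard = r := by
      rintro ⟨v, x⟩
      rw [cover_deg]
      exact hreg v
    exact ⟨h1, lower hr (la_le_iff.1 le_rfl) h1⟩

end Pool.Agent.Results.MP_0a041d_co.RandomLifts
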