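import Pool.Agent.V5helper6.LAR.PermCount
import Pool.Agent.V5helper6.LAR.Exist

set_option autoImplicit false

/-!
# Every regular graph has small covers that satisfy the linear arboricity conjecture

`H931R3.LA.la G` is the linear arboricity (the same expression as in the frozen statement S07085).

A permutation `σ {u, v}` of `{0, ..., m - 1}` is given for every pair of vertices of the linearly
ordered finite set `V`; `volt σ u v` is `σ {u, v}` if `u < v` and its inverse if not. The `m`-fold
cover `cover (Fin m) G σ` of `G` has the vertex set `V × Fin m`, and `(u, x)` and `(v, y)` are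
adjacent if `u` and `v` are adjacent in `G` and `y = volt σ u v x`.
-/

namespace Pool.Agent.Results.MP_0a041d_co.SmallCovers

open SimpleGraph Finset H931R3.LA Pool.Agent.W111.LAR Pool.Agent.V5helper6.LAR Equiv

theorem nontriv_rot (m : ℕ) (hm : 0 < m) (x y : Fin m) : ∃ t : ℕ, (finRotate m ^ t) x = y := by
  obtain ⟨n, rfl⟩ : ∃ n, m = n + 1 := ⟨m - 1, by omega⟩
  have h1 : ∀ t : ℕ, ((finRotate (n + 1) ^ t) x).val = (x.val + t) % (n + 1) := by
    intro t
    induction t with
    | zero =>
      rw [pow_zero, Perm.one_apply, add_zero, Nat.mod_eq_of_lt x.isLt]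
    | succ t ih =>
      have h1 : ((1 : Fin (n + 1)) : ℕ) = 1 % (n + 1) := rfl
      rw [pow_succ', Perm.mul_apply, finRotate_apply, Fin.val_add, ih, h1, ← Nat.add_mod]
      congr 1
  refine ⟨n + 1 - x.val + y.val, ?_⟩
  apply Fin.ext
  rw [h1]
  have h2 : x.val + (n + 1 - x.val + y.val) = y.val + (n + 1) := by omega
  rw [h2, Nat.add_mod_right, Nat.mod_eq_of_lt y.isLt]

theorem per_of_trans {m : ℕ} (c : Perm (Fin m))
    (h : ∀ x y : Fin m, ∃ t : ℕ, (c ^ t) x = y) (x : Fin m) :
    m ≤ Function.minimalPeriod (fun y : Fin m => c • y) x := by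
  set p := Function.minimalPeriod (fun y : Fin m => c • y) x with hp
  have hpos : 0 < p := minPer_pos c x
  have h1 : Function.Surjective (fun t : Fin p => (c ^ (t : ℕ)) x) := by
    intro y
    obtain ⟨t, ht⟩ := h x y
    refine ⟨⟨t % p, Nat.mod_lt _ hpos⟩, ?_⟩
    have h2 := Function.iterate_mod_minimalPeriod_eq (f := fun y : Fin m => c • y) (x := x) (n := t)
    rw [smul_iterate_apply, smul_iterate_apply] at h2
    dsimp only
    rw [← ht]
    exact h2
  have h2 := Fintype.card_le_of_surjective _ h1
  rwa [Fintype.card_fin, Fintype.card_fin] at h2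

theorem inv_trans {m : ℕ} (c : Perm (Fin m)) (h : ∀ x y : Fin m, ∃ t : ℕ, (c ^ t) x = y)
    (x y : Fin m) : ∃ t : ℕ, (c⁻¹ ^ t) x = y := by
  obtain ⟨t, ht⟩ := h y x
  refine ⟨t, ?_⟩
  rw [inv_pow, ← ht]
  exact (c ^ t).symm_apply_apply y

/-- **Small covers.** Let `k ≥ 1`, and let the finite graph `G` be `2 k`-regular and
`3 m ≥ 2 k`, or let `G` be `(2 k + 1)`-regular with a perfect matching and `3 m ≥ 12 k - 8`. Then `G`
has an `m`-fold cover, connected if `G` is connected, that satisfies the equality `la = k + 1` of the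
linear arboricity conjecture. -/
theorem result :
    ∀ (V : Type) [Finite V] [LinearOrder V] [Nonempty V] (G : SimpleGraph V) (k m : ℕ),
      0 < k → 0 < m →
      ((∀ v, (G.neighborSet v).ncard = 2 * k) ∧ 2 * k ≤ 3 * m ∨
        (∃ M : G.Subgraph, M.IsPerfectMatching) ∧ (∀ v, (G.neighborSet v).ncard = 2 * k + 1) ∧
          12 * k ≤ 3 * m + 8) →
      ∃ σ : Sym2 V → Perm (Fin m), la (cover (Fin m) G σ) = k + 1 ∧
        (∀ p, ((cover (Fin m) G σ).neighborSet p).ncard = (G.neighborSet p.1).ncard) ∧
        (G.Connected → (cover (Fin m) G σ).Connected) := by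
  classical
  intro V _ _ _ G k m hk hm hcase
  have hne : Nonempty (Fin m) := ⟨⟨0, hm⟩⟩
  have h1 := nontriv_rot m hm
  have h2 := inv_trans _ h1
  rcases hcase with ⟨hreg, h⟩ | ⟨⟨M, hM⟩, hreg, h⟩
  · obtain ⟨D⟩ := exists_cuts G k (fun v => (hreg v).le)
    refine ⟨desV D (finRotate m), ?_, fun p => cover_deg G _ p.1 p.2, ?_⟩
    · have h3 := cov_des (X := Fin m) D (finRotate m) m (per_of_trans _ h1)
        (per_of_trans _ h2) h
      have h4 : (2 * k + 2) / 2 = k + 1 := by omega
      rw [← h4]
      rw [← h4] at h3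
      exact la_eq_of_cov (by omega) (fun v => by rw [cover_deg]; exact hreg v.1) h3
    · intro hc
      have h3 := conn_des (X := Fin m) D (finRotate m) hk hreg ⊥ (by rwa [bot_sup_eq]) h1 h2
      rwa [bot_sup_eq] at h3
  · have h3 := fun v => ncard_sdiff_matching hM v
    have h4 : ∀ v, ((G \ M.spanningCoe).neighborSet v).ncard = 2 * k := by
      intro v
      have := (h3 v).2
      rw [hreg v] at this
      omega
    obtain ⟨D⟩ := exists_cuts (G \ M.spanningCoe) k (fun v => (h4 v).le)
    have h5 : M.spanningCoe ⊔ (G \ M.spanningCoe) = G := by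
      have hle : M.spanningCoe ≤ G := fun u v huv => M.adj_sub huv
      rw [sup_sdiff_cancel_right hle]
    refine ⟨desV D (finRotate m), ?_, fun p => cover_deg G _ p.1 p.2, ?_⟩
    · have h6 := cov_des_matching (X := Fin m) D M.spanningCoe (fun v => (h3 v).1.le)
        (finRotate m) m (per_of_trans _ h1) (per_of_trans _ h2) h
      rw [h5] at h6
      have h7 : (2 * k + 1 + 2) / 2 = k + 1 := by omega
      rw [← h7]
      rw [← h7] at h6
      exact la_eq_of_cov (by omega) (fun v => by rw [cover_deg]; exact hreg v.1) h6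
    · intro hc
      have h6 := conn_des (X := Fin m) D (finRotate m) hk h4 M.spanningCoe (by rwa [h5]) h1 h2
      rwa [h5] at h6

end Pool.Agent.Results.MP_0a041d_co.SmallCovers
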